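import Mathlib

/-!
# Finitely generated groups of bounded exponent in finite-dimensional algebras are finite
-/

set_option autoImplicit false

namespace Q6.Deg

open Module

section traces

variable {K V : Type*} [Field K] [IsAlgClosed K] [AddCommGroup V] [Module K V]
  [FiniteDimensional K V]

/-- the traces of the endomorphisms of exponent `n` form a finite set -/
theorem finite_traces (n : ℕ) (hn : 0 < n) :
    {t : K | ∃ f : Module.End K V, f ^ n = 1 ∧ LinearMap.trace K V f = t}.Finite := by
  classical
  let T : Multiset K := (Module.finrank K V) • ((Polynomial.nthRoots n (1 : K)).dedup)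
  apply (Finset.finite_toSet ((T.powerset.map Multiset.sum).toFinset)).subset
  rintro t ⟨f, hf, rfl⟩
  rw [Finset.mem_coe, Multiset.mem_toFinset, Multiset.mem_map]
  refine ⟨f.charpoly.roots, ?_, ?_⟩
  · rw [Multiset.mem_powerset, Multiset.le_iff_count]
    intro μ
    by_cases hμ : μ ∈ f.charpoly.roots
    · have h1 : f.charpoly.IsRoot μ := (Polynomial.mem_roots'.1 hμ).2
      rw [← Module.End.hasEigenvalue_iff_isRoot_charpoly] at h1
      obtain ⟨v, hv⟩ := h1.exists_hasEigenvector
      have h2 : (f ^ n) v = μ ^ n • v := hv.pow_apply n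
      rw [hf] at h2
      have h3 : (μ ^ n - 1) • v = 0 := by
        rw [sub_smul, ← h2, one_smul]
        simp
      have h4 : μ ^ n = 1 := by
        rcases smul_eq_zero.1 h3 with h | h
        · exact sub_eq_zero.1 h
        · exact absurd h hv.2
      have h5 : μ ∈ (Polynomial.nthRoots n (1 : K)).dedup := by
        rw [Multiset.mem_dedup, Polynomial.mem_nthRoots hn]
        exact h4
      have h6 : 1 ≤ Multiset.count μ (Polynomial.nthRoots n (1 : K)).dedup :=
        Multiset.one_le_count_iff_mem.2 h5
      calc Multiset.count μ f.charpoly.roots ≤ f.charpoly.roots.card := Multiset.count_le_card _ _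
        _ ≤ f.charpoly.natDegree := Polynomial.card_roots' _
        _ = Module.finrank K V := LinearMap.charpoly_natDegree _
        _ ≤ Multiset.count μ T := by
          rw [Multiset.count_nsmul]
          exact Nat.le_mul_of_pos_right _ h6
    · rw [Multiset.count_eq_zero_of_notMem hμ]; exact Nat.zero_le _
  · exact (Module.End.trace_eq_sum_roots_charpoly_of_splits (IsAlgClosed.splits _)).symm

omit [IsAlgClosed K] in
theorem eq_zero_of_trace (f : Module.End K V) (h : ∀ a : Module.End K V,
    LinearMap.trace K V (f * a) = 0) : f = 0 := by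
  ext v
  rw [LinearMap.zero_apply]
  by_contra hv
  obtain ⟨φ, hφ⟩ : ∃ φ : Module.Dual K V, φ (f v) ≠ 0 := by
    by_contra hcon
    push Not at hcon
    exact hv ((Module.forall_dual_apply_eq_zero_iff K (f v)).1 hcon)
  apply hφ
  have := h (LinearMap.smulRight φ v)
  have e : f * LinearMap.smulRight φ v = LinearMap.smulRight φ (f v) := by
    ext w
    show f (φ w • v) = φ w • f v
    rw [map_smul]
  rw [e, LinearMap.trace_smulRight] at this
  exact this

theorem finite_of_span_top {G : Type*} [Group G] (ρ : G →* Module.End K V) (n : ℕ) (hn : 0 < n)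
    (hG : ∀ g : G, g ^ n = 1) (hs : Submodule.span K (Set.range ρ) = ⊤) :
    (Set.range ρ).Finite := by
  classical
  obtain ⟨s, hs1, hs2⟩ := (Submodule.fg_span_iff_fg_span_finset_subset (R := K) (Set.range ρ)).1
    (by rw [hs]; exact Module.Finite.fg_top)
  rw [hs] at hs2
  let Φ : Module.End K V → (s → K) := fun f b => LinearMap.trace K V (f * b.1)
  have hinj : Function.Injective Φ := by
    intro f f' hff
    rw [← sub_eq_zero]
    apply eq_zero_of_trace
    intro a
    have ha : a ∈ Submodule.span K (s : Set (Module.End K V)) := by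
      rw [← hs2]; trivial
    induction ha using Submodule.span_induction with
    | mem x hx =>
      have := congrFun hff ⟨x, hx⟩
      rw [sub_mul, map_sub, sub_eq_zero]
      exact this
    | zero => simp
    | add x y _ _ hx hy => rw [mul_add, map_add, hx, hy, add_zero]
    | smul c x _ hx => rw [mul_smul_comm, map_smul, hx, smul_zero]
  refine Set.Finite.of_finite_image ?_ (hinj.injOn (s := Set.range ρ))
  have hfin := finite_traces (K := K) (V := V) n hn
  refine (Set.Finite.pi' (fun _ : s => hfin)).subset ?_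
  rintro _ ⟨_, ⟨g, rfl⟩, rfl⟩
  intro b
  obtain ⟨g', hg'⟩ := hs1 b.2
  refine ⟨ρ g * b.1, ?_, rfl⟩
  have : ρ g * b.1 = ρ (g * g') := by rw [map_mul, hg']
  rw [this, ← map_pow, hG, map_one]

/-- the span of the image of a group is a subalgebra -/
theorem adjoin_eq_span_range {F A G : Type*} [Field F] [Ring A] [Algebra F A] [Group G]
    (f : G →* A) :
    Subalgebra.toSubmodule (Algebra.adjoin F (Set.range f)) = Submodule.span F (Set.range f) := by
  rw [Algebra.adjoin_eq_span]
  congr 1
  have : (Submonoid.closure (Set.range f)) = MonoidHom.mrange f := by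
    rw [← MonoidHom.coe_mrange, Submonoid.closure_eq]
  rw [this, MonoidHom.coe_mrange]

/-- Burnside's theorem on irreducible groups -/
theorem span_top_of_irreducible {G : Type*} [Group G] (ρ : G →* Module.End K V) [Nontrivial V]
    (hirr : ∀ W : Submodule K V, (∀ g, W ≤ W.comap (ρ g)) → W = ⊥ ∨ W = ⊤) :
    Submodule.span K (Set.range ρ) = ⊤ := by
  classical
  set R := Algebra.adjoin K (Set.range ρ) with hR
  have hmem : ∀ g, ρ g ∈ R := fun g => Algebra.subset_adjoin ⟨g, rfl⟩
  have hsimple : IsSimpleModule R V := by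
    rw [isSimpleModule_iff]
    refine { exists_pair_ne := ⟨⊥, ⊤, ?_⟩, eq_bot_or_eq_top := ?_ }
    · exact bot_ne_top
    · intro W
      rcases hirr (W.restrictScalars K) (fun g v hv => W.smul_mem (⟨ρ g, hmem g⟩ : R) hv)
        with h | h
      · left
        rwa [Submodule.restrictScalars_eq_bot_iff] at h
      · right
        rwa [Submodule.restrictScalars_eq_top_iff] at h
  have hbij := IsSimpleModule.algebraMap_end_bijective_of_isAlgClosed (A := R) (V := V) K
  rw [← adjoin_eq_span_range, ← hR, Algebra.toSubmodule_eq_top, eq_top_iff]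
  intro f _
  obtain ⟨s, hs⟩ := (Module.Finite.fg_top : (⊤ : Submodule K V).FG)
  obtain ⟨r, hr⟩ := jacobson_density (R := R) (M := V)
    { toFun := f
      map_add' := f.map_add
      map_smul' := by
        intro φ v
        obtain ⟨c, rfl⟩ := hbij.2 φ
        show f (c • v) = c • f v
        rw [map_smul] } s
  have : f = (r : Module.End K V) := by
    apply LinearMap.ext_on (s := (s : Set V)) hs
    intro v hv
    exact hr v hv
  rw [this]
  exact r.2

end traces

theorem ker_finiteIndex {G M : Type*} [Group G] [Monoid M] (ρ : G →* M)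
    (h : (Set.range ρ).Finite) : ρ.ker.FiniteIndex := by
  have hfin : Finite (Set.range ρ) := h
  have : Finite (G ⧸ ρ.ker) := by
    let f : G ⧸ ρ.ker → Set.range ρ := Quotient.lift (fun g => (⟨ρ g, g, rfl⟩ : Set.range ρ)) (by
      intro a b hab
      have h1 : a⁻¹ * b ∈ ρ.ker := QuotientGroup.leftRel_apply.1 hab
      apply Subtype.ext
      show ρ a = ρ b
      have h2 : ρ b = ρ a * ρ (a⁻¹ * b) := by rw [← map_mul, mul_inv_cancel_left]
      rw [h2, MonoidHom.mem_ker.1 h1, mul_one])
    apply Finite.of_injective f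
    intro a b hab
    obtain ⟨a, rfl⟩ := QuotientGroup.mk_surjective a
    obtain ⟨b, rfl⟩ := QuotientGroup.mk_surjective b
    have h1 : ρ a = ρ b := congrArg Subtype.val hab
    apply QuotientGroup.eq.2
    rw [MonoidHom.mem_ker, map_mul, ← h1, ← map_mul, inv_mul_cancel, map_one]
  exact Subgroup.finiteIndex_of_finite_quotient

theorem finite_comm_range {G M : Type*} [Group G] [Group.FG G] [Monoid M] (ρ : G →* M) (n : ℕ)
    (hn : 0 < n) (hG : ∀ g : G, g ^ n = 1) (hc : ∀ g h : G, ρ g * ρ h = ρ h * ρ g) :
    (Set.range ρ).Finite := by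
  let P := (ρ.toHomUnits).range
  have hfg : Group.FG P := Group.fg_range _
  let _ : CommGroup P := { (inferInstance : Group P) with
    mul_comm := by
      rintro ⟨_, g, rfl⟩ ⟨_, h, rfl⟩
      apply Subtype.ext
      apply Units.ext
      exact hc g h }
  have ht : IsMulTorsion P := by
    rintro ⟨_, g, rfl⟩
    rw [isOfFinOrder_iff_pow_eq_one]
    refine ⟨n, hn, ?_⟩
    apply Subtype.ext
    show (ρ.toHomUnits g) ^ n = 1
    rw [← map_pow, hG, map_one]
  have hP : Finite P := CommGroup.finite_of_fg_isMulTorsion P ht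
  have : Set.range ρ ⊆ Set.range (fun p : P => ((p : Mˣ) : M)) := by
    rintro _ ⟨g, rfl⟩
    exact ⟨⟨ρ.toHomUnits g, g, rfl⟩, rfl⟩
  exact (Set.finite_range _).subset this

section main

universe u v w

variable {K : Type u} [Field K] [IsAlgClosed K]

/-- **Burnside's theorem** for finitely generated groups of bounded exponent -/
theorem finite_range (n : ℕ) (hn : 0 < n) : ∀ (d : ℕ) (V : Type v) [AddCommGroup V] [Module K V]
    [FiniteDimensional K V] (G : Type w) [Group G] [Group.FG G] (ρ : G →* Module.End K V),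
    (∀ g : G, g ^ n = 1) → Module.finrank K V = d → (Set.range ρ).Finite := by
  intro d
  induction d using Nat.strong_induction_on with
  | _ d ih =>
  intro V _ _ _ G _ _ ρ hG hd
  rcases subsingleton_or_nontrivial V with hV | hV
  · exact Set.toFinite _
  by_cases hirr : ∀ W : Submodule K V, (∀ g, W ≤ W.comap (ρ g)) → W = ⊥ ∨ W = ⊤
  · exact finite_of_span_top ρ n hn hG (span_top_of_irreducible ρ hirr)
  push Not at hirr
  obtain ⟨W, hW, hW0, hW1⟩ := hirr
  let ρW : G →* Module.End K W :=
    { toFun := fun g => (ρ g).restrict (fun v hv => hW g hv)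
      map_one' := by
        ext v
        simp
      map_mul' := by
        intro g h
        ext v
        simp }
  let ρQ : G →* Module.End K (V ⧸ W) :=
    { toFun := fun g => W.mapQ W (ρ g) (hW g)
      map_one' := by
        ext v
        simp
      map_mul' := by
        intro g h
        ext v
        simp }
  have hW2 : (Set.range ρW).Finite := by
    refine ih _ ?_ W G ρW hG rfl
    rw [← hd]
    exact Submodule.finrank_lt hW1
  have hQ2 : (Set.range ρQ).Finite := by
    refine ih _ ?_ (V ⧸ W) G ρQ hG rfl
    rw [← hd]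
    have h1 := Submodule.finrank_quotient_add_finrank W
    have h2 : 0 < Module.finrank K W := by
      rw [Module.finrank_pos_iff]
      exact (Submodule.nontrivial_iff_ne_bot).2 hW0
    omega
  have i1 := ker_finiteIndex ρW hW2
  have i2 := ker_finiteIndex ρQ hQ2
  let N := ρW.ker ⊓ ρQ.ker
  have i3 : N.FiniteIndex := inferInstance
  have i4 : Group.FG N := inferInstance
  have hsub : ∀ g ∈ N, ∀ v : V, ρ g v - v ∈ W := by
    intro g hg v
    have h1 : ρQ g = 1 := MonoidHom.mem_ker.1 hg.2
    have h2 : ρQ g (Submodule.Quotient.mk v) = Submodule.Quotient.mk (ρ g v) := rfl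
    rw [h1] at h2
    exact (Submodule.Quotient.eq W).1 h2.symm
  have hfix : ∀ g ∈ N, ∀ v ∈ W, ρ g v = v := by
    intro g hg v hv
    have h1 : ρW g = 1 := MonoidHom.mem_ker.1 hg.1
    have h2 : ((ρW g ⟨v, hv⟩ : W) : V) = ρ g v := rfl
    rw [h1] at h2
    exact h2.symm
  have hprod : ∀ g ∈ N, ∀ h ∈ N, ρ g * ρ h = ρ g + ρ h - 1 := by
    intro g hg h hh
    ext v
    show ρ g (ρ h v) = ρ g v + ρ h v - v
    have h1 := hfix g hg _ (hsub h hh v)
    rw [map_sub] at h1
    have h2 : ρ g (ρ h v) = ρ h v - v + ρ g v := sub_eq_iff_eq_add.1 h1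
    rw [h2]; abel
  have hN : (Set.range (ρ.comp N.subtype)).Finite := by
    apply finite_comm_range _ n hn
    · intro g
      apply Subtype.ext
      exact hG g.1
    · intro g h
      show ρ g * ρ h = ρ h * ρ g
      rw [hprod g g.2 h h.2, hprod h h.2 g g.2, add_comm]
  have hQf : Finite (G ⧸ N) := inferInstance
  have hcover : Set.range ρ ⊆ ⋃ q : G ⧸ N, (fun x => ρ q.out * x) ''
      (Set.range (ρ.comp N.subtype)) := by
    rintro _ ⟨g, rfl⟩
    rw [Set.mem_iUnion]
    refine ⟨(g : G ⧸ N), ρ ((g : G ⧸ N).out⁻¹ * g), ⟨⟨(g : G ⧸ N).out⁻¹ * g, ?_⟩, rfl⟩, ?_⟩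
    · apply QuotientGroup.eq.1
      exact QuotientGroup.out_eq' _
    · show ρ _ * ρ _ = ρ g
      rw [← map_mul, mul_inv_cancel_left]
  exact (Set.finite_iUnion fun q => hN.image _).subset hcover

end main

open scoped TensorProduct in
/-- a finitely generated group of exponent dividing `n` which embeds in a finite-dimensional
algebra is finite -/
theorem finite_of_span {F A G : Type*} [Field F] [Ring A] [Algebra F A] [Group G] [Group.FG G]
    (f : G →* A) (hinj : Function.Injective f)
    (hfin : FiniteDimensional F (Submodule.span F (Set.range f))) (n : ℕ) (hn : 0 < n)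
    (hG : ∀ g : G, g ^ n = 1) : Finite G := by
  let B := Algebra.adjoin F (Set.range f)
  have hB : FiniteDimensional F B := by
    have : FiniteDimensional F (Subalgebra.toSubmodule B) := by
      rw [adjoin_eq_span_range f]
      exact hfin
    exact this
  let K := AlgebraicClosure F
  have hmem : ∀ g, f g ∈ B := fun g => Algebra.subset_adjoin ⟨g, rfl⟩
  let fB : G →* B :=
    { toFun := fun g => ⟨f g, hmem g⟩
      map_one' := Subtype.ext (map_one f)
      map_mul' := fun g h => Subtype.ext (map_mul f g h) }
  let ρ : G →* Module.End K (K ⊗[F] B) :=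
    ((Module.End.baseChangeHom F K B).toMonoidHom.comp (Algebra.lmul F B).toMonoidHom).comp fB
  have hρ : (Set.range ρ).Finite := finite_range n hn _ (K ⊗[F] B) G ρ hG rfl
  have hρi : Function.Injective ρ := by
    intro g h hgh
    have h1 : ρ g (1 ⊗ₜ[F] (1 : B)) = (1 : K) ⊗ₜ[F] fB g := by
      show LinearMap.baseChange K (Algebra.lmul F B (fB g)) ((1 : K) ⊗ₜ[F] (1 : B)) = _
      rw [LinearMap.baseChange_tmul]
      simp
    have h2 : ρ h (1 ⊗ₜ[F] (1 : B)) = (1 : K) ⊗ₜ[F] fB h := by
      show LinearMap.baseChange K (Algebra.lmul F B (fB h)) ((1 : K) ⊗ₜ[F] (1 : B)) = _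
      rw [LinearMap.baseChange_tmul]
      simp
    rw [hgh, h2] at h1
    have h3 : fB h = fB g :=
      Algebra.TensorProduct.includeRight_injective (A := K) (B := B)
        (FaithfulSMul.algebraMap_injective F K) h1
    exact (hinj (congrArg Subtype.val h3)).symm
  have : Finite (Set.range ρ) := hρ
  exact Finite.of_injective (fun g => (⟨ρ g, g, rfl⟩ : Set.range ρ))
    (fun g h hgh => hρi (congrArg Subtype.val hgh))

end Q6.Deg
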