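import Mathlib

/-!
# Invertible elements which are algebraic of degree at most three or four
-/

set_option autoImplicit false

namespace Q6.Deg

open Polynomial

/-- `a` is a root of a nonzero polynomial of degree at most `d` over `F` -/
def DegLE (F : Type*) {A : Type*} [Field F] [Ring A] [Algebra F A] (d : ℕ) (a : A) : Prop :=
  ∃ p : F[X], p ≠ 0 ∧ p.natDegree ≤ d ∧ aeval a p = 0

variable {F A : Type*} [Field F] [Ring A] [Algebra F A]

theorem exists_normal {d : ℕ} {a b : A} (hba : b * a = 1)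
    (h : DegLE F d a) : ∃ r : F[X], r.natDegree = d ∧ r.coeff 0 ≠ 0 ∧ r.coeff d ≠ 0 ∧
      aeval a r = 0 := by
  obtain ⟨p, hp, hd, hpa⟩ := h
  obtain ⟨q, hq, hX⟩ := exists_eq_pow_rootMultiplicity_mul_and_not_dvd p hp 0
  rw [C_0, sub_zero] at hq hX
  have hq0 : q ≠ 0 := by rintro rfl; exact hX (dvd_zero _)
  have hqa : aeval a q = 0 := by
    rw [hq, map_mul, map_pow, aeval_X] at hpa
    have : ∀ k : ℕ, b ^ k * a ^ k = 1 := by
      intro k
      induction k with
      | zero => simp
      | succ k ih => rw [pow_succ b, pow_succ' a, mul_assoc, ← mul_assoc b, hba, one_mul, ih]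
    have h1 := congrArg (fun x => b ^ (rootMultiplicity 0 p) * x) hpa
    simp only [mul_zero, ← mul_assoc, this, one_mul] at h1
    exact h1
  have hqd : q.natDegree ≤ d := by
    refine le_trans ?_ hd
    conv_rhs => rw [hq]
    rw [natDegree_mul (pow_ne_zero _ X_ne_zero) hq0]
    exact Nat.le_add_left _ _
  have hX1 : (X - C (1 : F)) ≠ 0 := X_sub_C_ne_zero 1
  have hr : (q * (X - C (1 : F)) ^ (d - q.natDegree)).natDegree = d := by
    rw [natDegree_mul hq0 (pow_ne_zero _ hX1), natDegree_pow, natDegree_X_sub_C, mul_one]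
    omega
  refine ⟨q * (X - C (1 : F)) ^ (d - q.natDegree), hr, ?_, ?_, ?_⟩
  · rw [mul_coeff_zero]
    apply mul_ne_zero
    · intro h0
      exact hX (X_dvd_iff.2 h0)
    · intro h0
      rw [Polynomial.coeff_zero_eq_eval_zero] at h0
      simp at h0
  · have h1 : (q * (X - C (1 : F)) ^ (d - q.natDegree)).leadingCoeff ≠ 0 :=
      leadingCoeff_ne_zero.2 (mul_ne_zero hq0 (pow_ne_zero _ hX1))
    rw [leadingCoeff, hr] at h1
    exact h1
  · rw [map_mul, hqa, zero_mul]

theorem cubic {a b : A} (hba : b * a = 1) (h : DegLE F 3 a) :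
    ∃ t s n : F, n ≠ 0 ∧ a * a = t • a + s • (1 : A) + n • b := by
  obtain ⟨r, hr, h0, h3, hra⟩ := exists_normal hba h
  refine ⟨-(r.coeff 2 / r.coeff 3), -(r.coeff 1 / r.coeff 3), -(r.coeff 0 / r.coeff 3), ?_, ?_⟩
  · exact neg_ne_zero.2 (div_ne_zero h0 h3)
  · rw [aeval_eq_sum_range' (n := 4) (by omega)] at hra
    simp only [Finset.sum_range_succ, Finset.sum_range_zero, zero_add, pow_zero, pow_one] at hra
    have e : r.coeff 0 • b + r.coeff 1 • (1 : A) + r.coeff 2 • a + r.coeff 3 • (a * a) = 0 := by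
      have := congrArg (fun x => b * x) hra
      simp only [mul_zero, mul_add, mul_smul_comm, mul_one, hba] at this
      rw [← this]
      have e2 : b * a ^ 2 = a := by rw [pow_two, ← mul_assoc, hba, one_mul]
      have e3 : b * a ^ 3 = a * a := by rw [pow_succ' a 2, ← mul_assoc, hba, one_mul, pow_two]
      rw [e2, e3]
    have e' : r.coeff 3 • (a * a) = -(r.coeff 2 • a + r.coeff 1 • (1 : A) + r.coeff 0 • b) := by
      rw [eq_neg_iff_add_eq_zero, ← e]; abel
    have e'' : a * a = (r.coeff 3)⁻¹ • (r.coeff 3 • (a * a)) := by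
      rw [smul_smul, inv_mul_cancel₀ h3, one_smul]
    rw [e'', e']
    simp only [smul_neg, smul_add, smul_smul, neg_smul, div_eq_inv_mul]
    abel

theorem quartic {a b : A} (hba : b * a = 1) (h : DegLE F 4 a) :
    ∃ t s u n : F, n ≠ 0 ∧ a * a = t • a + s • (1 : A) + u • b + n • (b * b) := by
  obtain ⟨r, hr, h0, h4, hra⟩ := exists_normal hba h
  refine ⟨-(r.coeff 3 / r.coeff 4), -(r.coeff 2 / r.coeff 4), -(r.coeff 1 / r.coeff 4),
    -(r.coeff 0 / r.coeff 4), ?_, ?_⟩
  · exact neg_ne_zero.2 (div_ne_zero h0 h4)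
  · rw [aeval_eq_sum_range' (n := 5) (by omega)] at hra
    simp only [Finset.sum_range_succ, Finset.sum_range_zero, zero_add, pow_zero, pow_one] at hra
    have e : r.coeff 0 • (b * b) + r.coeff 1 • b + r.coeff 2 • (1 : A) + r.coeff 3 • a +
        r.coeff 4 • (a * a) = 0 := by
      have := congrArg (fun x => b * b * x) hra
      simp only [mul_zero, mul_add, mul_smul_comm, mul_one] at this
      rw [← this]
      have e1 : b * b * a = b := by rw [mul_assoc, hba, mul_one]
      have e2 : b * b * a ^ 2 = 1 := by rw [pow_two, ← mul_assoc, e1, hba]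
      have e3 : b * b * a ^ 3 = a := by rw [pow_succ a 2, ← mul_assoc, e2, one_mul]
      have e4 : b * b * a ^ 4 = a * a := by rw [pow_succ a 3, ← mul_assoc, e3]
      rw [e1, e2, e3, e4]
    have e' : r.coeff 4 • (a * a) = -(r.coeff 3 • a + r.coeff 2 • (1 : A) + r.coeff 1 • b +
        r.coeff 0 • (b * b)) := by
      rw [eq_neg_iff_add_eq_zero, ← e]; abel
    have e'' : a * a = (r.coeff 4)⁻¹ • (r.coeff 4 • (a * a)) := by
      rw [smul_smul, inv_mul_cancel₀ h4, one_smul]
    rw [e'', e']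
    simp only [smul_neg, smul_add, smul_smul, neg_smul, div_eq_inv_mul]
    abel

end Q6.Deg
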