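import Mathlib
import Pool.Agent.Q6.Deg.Poly

/-!
# Groups whose elements are algebraic of degree at most three
-/

set_option autoImplicit false

namespace Q6.Deg

variable {F A G : Type*} [Field F] [Ring A] [Algebra F A] [Group G] (f : G →* A)

/-- all elements of the group satisfy a cubic relation -/
def Cub (F : Type*) {A G : Type*} [Field F] [Ring A] [Algebra F A] [Group G] (f : G →* A) : Prop :=
  ∀ g : G, ∃ t s n : F, n ≠ 0 ∧ f g * f g = t • f g + s • (1 : A) + n • f g⁻¹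

variable {f}

theorem rel (hc : Cub F f) (x h : G) : ∃ t s n : F, n ≠ 0 ∧
    f (x * h * x) = t • f x + s • f h⁻¹ + n • f (h⁻¹ * x⁻¹ * h⁻¹) := by
  obtain ⟨t, s, n, hn, e⟩ := hc (x * h)
  refine ⟨t, s, n, hn, ?_⟩
  have h1 := congrArg (fun y => y * f h⁻¹) e
  simp only [add_mul, smul_mul_assoc, one_mul] at h1
  rw [← map_mul, ← map_mul, ← map_mul, ← map_mul] at h1
  have e1 : x * h * (x * h) * h⁻¹ = x * h * x := by group
  have e2 : x * h * h⁻¹ = x := by group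
  have e3 : (x * h)⁻¹ * h⁻¹ = h⁻¹ * x⁻¹ * h⁻¹ := by group
  rw [e1, e2, e3] at h1
  exact h1

/-- the relation, multiplied by arbitrary elements -/
theorem rel2 (hc : Cub F f) (u x h v : G) : ∃ t s n : F,
    f (u * x * h * x * v) = t • f (u * x * v) + s • f (u * h⁻¹ * v) +
      n • f (u * h⁻¹ * x⁻¹ * h⁻¹ * v) := by
  obtain ⟨t, s, n, -, e⟩ := rel hc x h
  refine ⟨t, s, n, ?_⟩
  have h1 := congrArg (fun y => f u * y * f v) e
  simp only [add_mul, mul_add, smul_mul_assoc, mul_smul_comm] at h1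
  simp only [← map_mul] at h1
  simpa only [mul_assoc] using h1

theorem rel_inv (hc : Cub F f) (u x k v : G) : ∃ a b c : F,
    f (u * x⁻¹ * v) = a • f (u * k * x * k * x * k * v) + b • f (u * k * x * k * v) +
      c • f (u * k * v) := by
  obtain ⟨t, s, n, hn, e⟩ := rel hc x k
  refine ⟨n⁻¹, -(n⁻¹ * t), -(n⁻¹ * s), ?_⟩
  have h1 := congrArg (fun y => n⁻¹ • (f (u * k) * y * f (k * v))) e
  simp only [add_mul, mul_add, smul_mul_assoc, mul_smul_comm, smul_add, smul_smul] at h1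
  simp only [← map_mul] at h1
  rw [inv_mul_cancel₀ hn, one_smul] at h1
  have e1 : u * k * (x * k * x) * (k * v) = u * k * x * k * x * k * v := by group
  have e2 : u * k * x * (k * v) = u * k * x * k * v := by group
  have e3 : u * k * k⁻¹ * (k * v) = u * k * v := by group
  have e4 : u * k * (k⁻¹ * x⁻¹ * k⁻¹) * (k * v) = u * x⁻¹ * v := by group
  rw [e1, e2, e3, e4] at h1
  rw [h1, neg_smul, neg_smul]
  abel

/-- the closure properties of the span of the short words -/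
structure Hy (f : G →* A) (H : Subgroup G) (x : G) (E : Submodule F A) : Prop where
  e0 : ∀ h ∈ H, f h ∈ E
  e1 : ∀ h1 ∈ H, ∀ h2 ∈ H, f (h1 * x * h2) ∈ E
  e2 : ∀ h1 ∈ H, ∀ h2 ∈ H, f (h1 * x⁻¹ * h2) ∈ E
  e3 : ∀ h1 ∈ H, ∀ h2 ∈ H, ∀ h3 ∈ H, f (h1 * x * h2 * x⁻¹ * h3) ∈ E
  e4 : ∀ h1 ∈ H, ∀ h2 ∈ H, ∀ h3 ∈ H, f (h1 * x⁻¹ * h2 * x * h3) ∈ E

variable {H : Subgroup G} {x : G} {E : Submodule F A}

theorem Hy.symm (h : Hy f H x E) : Hy f H x⁻¹ E where
  e0 := h.e0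
  e1 := h.e2
  e2 := by rw [inv_inv]; exact h.e1
  e3 := by rw [inv_inv]; exact h.e4
  e4 := by rw [inv_inv]; exact h.e3

theorem comb3 {a b c : A} (ha : a ∈ E) (hb : b ∈ E) (hc : c ∈ E) (r s t : F) :
    r • a + s • b + t • c ∈ E :=
  E.add_mem (E.add_mem (E.smul_mem r ha) (E.smul_mem s hb)) (E.smul_mem t hc)

theorem L1 (hc : Cub F f) (hE : Hy f H x E) {h1 h2 h3 : G} (i1 : h1 ∈ H) (i2 : h2 ∈ H)
    (i3 : h3 ∈ H) : f (h1 * x * h2 * x * h3) ∈ E := by
  obtain ⟨t, s, n, e⟩ := rel2 hc h1 x h2 h3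
  rw [e]
  refine comb3 (hE.e1 _ i1 _ i3) (hE.e0 _ (mul_mem (mul_mem i1 (inv_mem i2)) i3)) ?_ t s n
  have := hE.e2 _ (mul_mem i1 (inv_mem i2)) _ (mul_mem (inv_mem i2) i3)
  simpa only [mul_assoc] using this

theorem L1' (hc : Cub F f) (hE : Hy f H x E) {h1 h2 h3 : G} (i1 : h1 ∈ H) (i2 : h2 ∈ H)
    (i3 : h3 ∈ H) : f (h1 * x⁻¹ * h2 * x⁻¹ * h3) ∈ E := L1 hc hE.symm i1 i2 i3

theorem sq (hc : Cub F f) (u x v : G) : ∃ t s n : F,
    f (u * x * x * v) = t • f (u * x * v) + s • f (u * v) + n • f (u * x⁻¹ * v) := by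
  obtain ⟨t, s, n, e⟩ := rel2 hc u x 1 v
  refine ⟨t, s, n, ?_⟩
  simpa only [mul_one, inv_one] using e

theorem L2 (hc : Cub F f) (hE : Hy f H x E) {h1 h2 h3 : G} (i1 : h1 ∈ H) (i2 : h2 ∈ H)
    (i3 : h3 ∈ H) : f (h1 * x * x * h2 * x * h3) ∈ E := by
  obtain ⟨t, s, n, e⟩ := sq hc h1 x (h2 * x * h3)
  have e' : h1 * x * x * h2 * x * h3 = h1 * x * x * (h2 * x * h3) := by simp only [mul_assoc]
  rw [e', e]
  refine comb3 ?_ ?_ ?_ t s n
  · have := L1 hc hE i1 i2 i3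
    simpa only [mul_assoc] using this
  · have := hE.e1 _ (mul_mem i1 i2) _ i3
    simpa only [mul_assoc] using this
  · have := hE.e4 _ i1 _ i2 _ i3
    simpa only [mul_assoc] using this

theorem L3 (hc : Cub F f) (hE : Hy f H x E) {h1 h2 h3 : G} (i1 : h1 ∈ H) (i2 : h2 ∈ H)
    (i3 : h3 ∈ H) : f (h1 * x * x * h2 * x⁻¹ * h3) ∈ E := by
  obtain ⟨t, s, n, e⟩ := sq hc h1 x (h2 * x⁻¹ * h3)
  have e' : h1 * x * x * h2 * x⁻¹ * h3 = h1 * x * x * (h2 * x⁻¹ * h3) := by simp only [mul_assoc]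
  rw [e', e]
  refine comb3 ?_ ?_ ?_ t s n
  · have := hE.e3 _ i1 _ i2 _ i3
    simpa only [mul_assoc] using this
  · have := hE.e2 _ (mul_mem i1 i2) _ i3
    simpa only [mul_assoc] using this
  · have := L1' hc hE i1 i2 i3
    simpa only [mul_assoc] using this

theorem L4 (hc : Cub F f) (hE : Hy f H x E) {h1 h2 h3 h4 : G} (i1 : h1 ∈ H) (i2 : h2 ∈ H)
    (i3 : h3 ∈ H) (i4 : h4 ∈ H) : f (h1 * x * x * h2 * x * h3 * x * h4) ∈ E := by
  obtain ⟨t, s, n, e⟩ := rel2 hc (h1 * x * x * h2) x h3 h4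
  rw [e]
  refine comb3 (L2 hc hE i1 i2 i4) ?_ ?_ t s n
  · have := L1 hc hE i1 (one_mem H) (mul_mem (mul_mem i2 (inv_mem i3)) i4)
    simpa only [mul_assoc, one_mul] using this
  · have := L3 hc hE i1 (mul_mem i2 (inv_mem i3)) (mul_mem (inv_mem i3) i4)
    simpa only [mul_assoc] using this

theorem L5 (hc : Cub F f) (hE : Hy f H x E) {h1 h2 h3 h4 : G} (i1 : h1 ∈ H) (i2 : h2 ∈ H)
    (i3 : h3 ∈ H) (i4 : h4 ∈ H) : f (h1 * x * h2 * x⁻¹ * h3 * x * h4) ∈ E := by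
  obtain ⟨a, b, c, e⟩ := rel_inv hc (h1 * x * h2) x h2⁻¹ (h3 * x * h4)
  have e' : h1 * x * h2 * x⁻¹ * h3 * x * h4 = h1 * x * h2 * x⁻¹ * (h3 * x * h4) := by
    simp only [mul_assoc]
  rw [e', e]
  refine comb3 ?_ ?_ ?_ a b c
  · have := L4 hc hE i1 (inv_mem i2) (mul_mem (inv_mem i2) i3) i4
    simpa only [mul_assoc, mul_inv_cancel_left] using this
  · have := L2 hc hE i1 (mul_mem (inv_mem i2) i3) i4
    simpa only [mul_assoc, mul_inv_cancel_left] using this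
  · have := L1 hc hE i1 i3 i4
    simpa only [mul_assoc, mul_inv_cancel_left] using this

theorem L6 (hc : Cub F f) (hE : Hy f H x E) {h1 h2 h3 h4 : G} (i1 : h1 ∈ H) (i2 : h2 ∈ H)
    (i3 : h3 ∈ H) (i4 : h4 ∈ H) : f (h1 * x⁻¹ * h2 * x * h3 * x * h4) ∈ E := by
  obtain ⟨t, s, n, e⟩ := rel2 hc (h1 * x⁻¹ * h2) x h3 h4
  rw [e]
  refine comb3 (hE.e4 _ i1 _ i2 _ i4) ?_ ?_ t s n
  · have := hE.e2 _ i1 _ (mul_mem (mul_mem i2 (inv_mem i3)) i4)
    simpa only [mul_assoc] using this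
  · have := L1' hc hE i1 (mul_mem i2 (inv_mem i3)) (mul_mem (inv_mem i3) i4)
    simpa only [mul_assoc] using this

/-- short words -/
inductive Tm (H : Subgroup G) (x : G) : G → Prop
  | z (h : G) : h ∈ H → Tm H x h
  | p (h1 h2 : G) : h1 ∈ H → h2 ∈ H → Tm H x (h1 * x * h2)
  | n (h1 h2 : G) : h1 ∈ H → h2 ∈ H → Tm H x (h1 * x⁻¹ * h2)
  | pn (h1 h2 h3 : G) : h1 ∈ H → h2 ∈ H → h3 ∈ H → Tm H x (h1 * x * h2 * x⁻¹ * h3)
  | np (h1 h2 h3 : G) : h1 ∈ H → h2 ∈ H → h3 ∈ H → Tm H x (h1 * x⁻¹ * h2 * x * h3)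

/-- span of the short words -/
def SW (F : Type*) {A G : Type*} [Field F] [Ring A] [Algebra F A] [Group G] (f : G →* A)
    (H : Subgroup G) (x : G) : Submodule F A := Submodule.span F (f '' {g | Tm H x g})

theorem SW_hy (f : G →* A) (H : Subgroup G) (x : G) : Hy f H x (SW F f H x) where
  e0 h i := Submodule.subset_span ⟨h, Tm.z h i, rfl⟩
  e1 h1 i1 h2 i2 := Submodule.subset_span ⟨_, Tm.p h1 h2 i1 i2, rfl⟩
  e2 h1 i1 h2 i2 := Submodule.subset_span ⟨_, Tm.n h1 h2 i1 i2, rfl⟩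
  e3 h1 i1 h2 i2 h3 i3 := Submodule.subset_span ⟨_, Tm.pn h1 h2 h3 i1 i2 i3, rfl⟩
  e4 h1 i1 h2 i2 h3 i3 := Submodule.subset_span ⟨_, Tm.np h1 h2 h3 i1 i2 i3, rfl⟩

theorem Tm_mul_x (hc : Cub F f) (hE : Hy f H x E) {g : G} (hg : Tm H x g) : f (g * x) ∈ E := by
  induction hg with
  | z h i =>
    have := hE.e1 h i 1 (one_mem H)
    rwa [mul_one] at this
  | p h1 h2 i1 i2 =>
    have := L1 hc hE i1 i2 (one_mem H)
    rwa [mul_one] at this
  | n h1 h2 i1 i2 =>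
    have := hE.e4 h1 i1 h2 i2 1 (one_mem H)
    rwa [mul_one] at this
  | pn h1 h2 h3 i1 i2 i3 =>
    have := L5 hc hE i1 i2 i3 (one_mem H)
    rwa [mul_one] at this
  | np h1 h2 h3 i1 i2 i3 =>
    have := L6 hc hE i1 i2 i3 (one_mem H)
    rwa [mul_one] at this

theorem Tm_symm {g : G} (hg : Tm H x g) : Tm H x⁻¹ g := by
  have hx : x⁻¹⁻¹ = x := inv_inv x
  induction hg with
  | z h i => exact Tm.z h i
  | p h1 h2 i1 i2 =>
    have := Tm.n (x := x⁻¹) h1 h2 i1 i2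
    rwa [hx] at this
  | n h1 h2 i1 i2 => exact Tm.p h1 h2 i1 i2
  | pn h1 h2 h3 i1 i2 i3 =>
    have := Tm.np (x := x⁻¹) h1 h2 h3 i1 i2 i3
    rwa [hx] at this
  | np h1 h2 h3 i1 i2 i3 =>
    have := Tm.pn (x := x⁻¹) h1 h2 h3 i1 i2 i3
    rwa [hx] at this

theorem Tm_mul_H {g k : G} (hg : Tm H x g) (hk : k ∈ H) : Tm H x (g * k) := by
  induction hg with
  | z h i => exact Tm.z _ (mul_mem i hk)
  | p h1 h2 i1 i2 => rw [mul_assoc]; exact Tm.p _ _ i1 (mul_mem i2 hk)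
  | n h1 h2 i1 i2 => rw [mul_assoc]; exact Tm.n _ _ i1 (mul_mem i2 hk)
  | pn h1 h2 h3 i1 i2 i3 => rw [mul_assoc]; exact Tm.pn _ _ _ i1 i2 (mul_mem i3 hk)
  | np h1 h2 h3 i1 i2 i3 => rw [mul_assoc]; exact Tm.np _ _ _ i1 i2 (mul_mem i3 hk)

theorem SW_mul (y : G) (h : ∀ g, Tm H x g → f (g * y) ∈ SW F f H x) {a : A}
    (ha : a ∈ SW F f H x) : a * f y ∈ SW F f H x := by
  unfold SW at ha
  induction ha using Submodule.span_induction with
  | mem a ha =>
    obtain ⟨g, hg, rfl⟩ := ha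
    rw [← map_mul]
    exact h g hg
  | zero => rw [zero_mul]; exact Submodule.zero_mem _
  | add a b _ _ h1 h2 => rw [add_mul]; exact Submodule.add_mem _ h1 h2
  | smul c a _ h1 => rw [smul_mul_assoc]; exact Submodule.smul_mem _ c h1

theorem closure_mem (hc : Cub F f) (s : Set G) (x : G) (g : G)
    (hg : g ∈ Subgroup.closure (insert x s)) : f g ∈ SW F f (Subgroup.closure s) x := by
  have hE := SW_hy (F := F) f (Subgroup.closure s) x
  have hx : ∀ a ∈ SW F f (Subgroup.closure s) x, a * f x ∈ SW F f (Subgroup.closure s) x :=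
    fun a ha => SW_mul x (fun g hg => Tm_mul_x hc hE hg) ha
  have hx' : ∀ a ∈ SW F f (Subgroup.closure s) x, a * f x⁻¹ ∈ SW F f (Subgroup.closure s) x :=
    fun a ha => SW_mul x⁻¹ (fun g hg => Tm_mul_x hc hE.symm (Tm_symm hg)) ha
  have hk : ∀ k ∈ Subgroup.closure s, ∀ a ∈ SW F f (Subgroup.closure s) x,
      a * f k ∈ SW F f (Subgroup.closure s) x :=
    fun k hk a ha => SW_mul k (fun g hg => Submodule.subset_span ⟨_, Tm_mul_H hg hk, rfl⟩) ha
  induction hg using Subgroup.closure_induction_right with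
  | one => exact hE.e0 1 (one_mem _)
  | mul_right a _ b hb ih =>
    rw [map_mul]
    rcases hb with rfl | hb
    · exact hx _ ih
    · exact hk b (Subgroup.subset_closure hb) _ ih
  | mul_inv_cancel a _ b hb ih =>
    rw [map_mul]
    rcases hb with rfl | hb
    · exact hx' _ ih
    · exact hk b⁻¹ (inv_mem (Subgroup.subset_closure hb)) _ ih

theorem SW_fg (f : G →* A) (H : Subgroup G) (x : G)
    (hH : (Submodule.span F (f '' (H : Set G))).FG) : (SW F f H x).FG := by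
  set S := Submodule.span F (f '' (H : Set G)) with hS
  set X := Submodule.span F ({f x} : Set A) with hX
  set Y := Submodule.span F ({f x⁻¹} : Set A) with hY
  have hXf : X.FG := Submodule.fg_span (Set.finite_singleton _)
  have hYf : Y.FG := Submodule.fg_span (Set.finite_singleton _)
  have hfg : (S ⊔ S * X * S ⊔ S * Y * S ⊔ S * X * S * Y * S ⊔ S * Y * S * X * S).FG :=
    (((hH.sup ((hH.mul hXf).mul hH)).sup ((hH.mul hYf).mul hH)).sup
      ((((hH.mul hXf).mul hH).mul hYf).mul hH)).sup ((((hH.mul hYf).mul hH).mul hXf).mul hH)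
  have hSm : ∀ h ∈ H, f h ∈ S := fun h i => Submodule.subset_span ⟨h, i, rfl⟩
  have hXm : f x ∈ X := Submodule.mem_span_singleton_self _
  have hYm : f x⁻¹ ∈ Y := Submodule.mem_span_singleton_self _
  have hle : SW F f H x ≤ S ⊔ S * X * S ⊔ S * Y * S ⊔ S * X * S * Y * S ⊔ S * Y * S * X * S := by
    unfold SW
    rw [Submodule.span_le]
    rintro _ ⟨g, hg, rfl⟩
    cases hg with
    | z h i =>
      exact Submodule.mem_sup_left (Submodule.mem_sup_left (Submodule.mem_sup_left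
        (Submodule.mem_sup_left (hSm _ i))))
    | p h1 h2 i1 i2 =>
      refine Submodule.mem_sup_left (Submodule.mem_sup_left (Submodule.mem_sup_left
        (Submodule.mem_sup_right ?_)))
      rw [map_mul, map_mul]
      exact Submodule.mul_mem_mul (Submodule.mul_mem_mul (hSm _ i1) hXm) (hSm _ i2)
    | n h1 h2 i1 i2 =>
      refine Submodule.mem_sup_left (Submodule.mem_sup_left (Submodule.mem_sup_right ?_))
      rw [map_mul, map_mul]
      exact Submodule.mul_mem_mul (Submodule.mul_mem_mul (hSm _ i1) hYm) (hSm _ i2)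
    | pn h1 h2 h3 i1 i2 i3 =>
      refine Submodule.mem_sup_left (Submodule.mem_sup_right ?_)
      rw [map_mul, map_mul, map_mul, map_mul]
      exact Submodule.mul_mem_mul (Submodule.mul_mem_mul (Submodule.mul_mem_mul
        (Submodule.mul_mem_mul (hSm _ i1) hXm) (hSm _ i2)) hYm) (hSm _ i3)
    | np h1 h2 h3 i1 i2 i3 =>
      refine Submodule.mem_sup_right ?_
      rw [map_mul, map_mul, map_mul, map_mul]
      exact Submodule.mul_mem_mul (Submodule.mul_mem_mul (Submodule.mul_mem_mul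
        (Submodule.mul_mem_mul (hSm _ i1) hYm) (hSm _ i2)) hXm) (hSm _ i3)
  exact Submodule.FG.of_le hfg hle

/-- finitely generated groups of elements of degree at most three span finite-dimensional
algebras -/
theorem cubic_span (hc : Cub F f) (s : Set G) (hs : s.Finite) :
    (Submodule.span F (f '' (Subgroup.closure s : Set G))).FG := by
  induction s, hs using Set.Finite.induction_on with
  | empty =>
    rw [Subgroup.closure_empty]
    apply Submodule.fg_span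
    apply Set.Finite.image
    simp
  | insert _ _ ih =>
    rename_i x s _ _
    refine Submodule.FG.of_le (SW_fg f (Subgroup.closure s) x ih) ?_
    rw [Submodule.span_le]
    rintro _ ⟨g, hg, rfl⟩
    exact closure_mem hc s x g hg

end Q6.Deg
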