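import Mathlib
import Pool.Agent.Q6.Deg.Poly

/-!
# Groups whose elements are algebraic of degree at most four: adjoining a 2-element
-/

set_option autoImplicit false

namespace Q6.Deg

variable {F A G : Type*} [Field F] [Ring A] [Algebra F A] [Group G] {f : G →* A}

/-- all elements of the group satisfy a quartic relation -/
def Qua (F : Type*) {A G : Type*} [Field F] [Ring A] [Algebra F A] [Group G] (f : G →* A) : Prop :=
  ∀ g : G, ∃ t s u n : F, n ≠ 0 ∧
    f g * f g = t • f g + s • (1 : A) + u • f g⁻¹ + n • (f g⁻¹ * f g⁻¹)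

theorem qrel (hc : Qua F f) (x h : G) : ∃ t s u n : F, n ≠ 0 ∧
    f (x * h * x) = t • f x + s • f h⁻¹ + u • f (h⁻¹ * x⁻¹ * h⁻¹) +
      n • f (h⁻¹ * x⁻¹ * h⁻¹ * x⁻¹ * h⁻¹) := by
  obtain ⟨t, s, u, n, hn, e⟩ := hc (x * h)
  refine ⟨t, s, u, n, hn, ?_⟩
  have h1 := congrArg (fun y => y * f h⁻¹) e
  simp only [add_mul, smul_mul_assoc, one_mul] at h1
  simp only [← map_mul] at h1
  have e1 : x * h * (x * h) * h⁻¹ = x * h * x := by group
  have e2 : x * h * h⁻¹ = x := by group
  have e3 : (x * h)⁻¹ * h⁻¹ = h⁻¹ * x⁻¹ * h⁻¹ := by group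
  have e4 : (x * h)⁻¹ * (x * h)⁻¹ * h⁻¹ = h⁻¹ * x⁻¹ * h⁻¹ * x⁻¹ * h⁻¹ := by group
  rw [e1, e2, e3, e4] at h1
  exact h1

/-- words `x h₁ x h₂ ⋯ x h_k` -/
inductive D (H : Subgroup G) (x : G) : ℕ → G → Prop
  | zero : D H x 0 1
  | succ (k : ℕ) (h w : G) : h ∈ H → D H x k w → D H x (k + 1) (x * h * w)

/-- the span of the words with at most `k` letters `x` -/
def W (F : Type*) {A G : Type*} [Field F] [Ring A] [Algebra F A] [Group G] (f : G →* A)
    (H : Subgroup G) (x : G) (k : ℕ) : Submodule F A :=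
  Submodule.span F (f '' {g | ∃ h ∈ H, ∃ j, j ≤ k ∧ ∃ w, D H x j w ∧ g = h * w})

variable {H : Subgroup G} {x : G}

theorem W_mem {h w : G} {j k : ℕ} (hh : h ∈ H) (hj : j ≤ k) (hw : D H x j w) :
    f (h * w) ∈ W F f H x k := Submodule.subset_span ⟨h * w, ⟨h, hh, j, hj, w, hw, rfl⟩, rfl⟩

theorem W_mono {j k : ℕ} (hjk : j ≤ k) : W F f H x j ≤ W F f H x k := by
  unfold W
  apply Submodule.span_mono
  apply Set.image_mono
  rintro g ⟨h, hh, i, hi, w, hw, rfl⟩
  exact ⟨h, hh, i, hi.trans hjk, w, hw, rfl⟩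

theorem W_H {k : ℕ} {h : G} (hh : h ∈ H) {a : A} (ha : a ∈ W F f H x k) :
    f h * a ∈ W F f H x k := by
  unfold W at ha
  induction ha using Submodule.span_induction with
  | mem a ha =>
    obtain ⟨_, ⟨h', hh', i, hi, w, hw, rfl⟩, rfl⟩ := ha
    rw [← map_mul, ← mul_assoc]
    exact W_mem (mul_mem hh hh') hi hw
  | zero => rw [mul_zero]; exact Submodule.zero_mem _
  | add a b _ _ h1 h2 => rw [mul_add]; exact Submodule.add_mem _ h1 h2
  | smul c a _ h1 => rw [mul_smul_comm]; exact Submodule.smul_mem _ c h1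

theorem W_x {k : ℕ} {a : A} (ha : a ∈ W F f H x k) : f x * a ∈ W F f H x (k + 1) := by
  unfold W at ha
  induction ha using Submodule.span_induction with
  | mem a ha =>
    obtain ⟨_, ⟨h', hh', i, hi, w, hw, rfl⟩, rfl⟩ := ha
    rw [← map_mul, ← mul_assoc, ← one_mul (x * h' * w)]
    exact W_mem (one_mem H) (Nat.succ_le_succ hi) (D.succ i h' w hh' hw)
  | zero => rw [mul_zero]; exact Submodule.zero_mem _
  | add a b _ _ h1 h2 => rw [mul_add]; exact Submodule.add_mem _ h1 h2
  | smul c a _ h1 => rw [mul_smul_comm]; exact Submodule.smul_mem _ c h1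

theorem T_lemma (hc : Qua F f) (hx : x * x ∈ H) {h h' w : G} {j : ℕ} (hh : h ∈ H) (hh' : h' ∈ H)
    (hw : D H x j w) : ∃ α : F, α ≠ 0 ∧
      f (x * h * (x * h' * w)) -
        α • f (h⁻¹ * (x * x)⁻¹ * (x * h⁻¹ * (x * ((x * x)⁻¹ * h⁻¹ * h') * w))) ∈
          W F f H x (j + 1) := by
  obtain ⟨t, s, u, n, hn, e⟩ := qrel hc x h
  refine ⟨n, hn, ?_⟩
  have h1 := congrArg (fun y => y * f (h' * w)) e
  simp only [add_mul, smul_mul_assoc] at h1
  simp only [← map_mul] at h1
  have e1 : x * h * x * (h' * w) = x * h * (x * h' * w) := by group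
  have e2 : h⁻¹ * x⁻¹ * h⁻¹ * x⁻¹ * h⁻¹ * (h' * w) =
      h⁻¹ * (x * x)⁻¹ * (x * h⁻¹ * (x * ((x * x)⁻¹ * h⁻¹ * h') * w)) := by group
  rw [e1, e2] at h1
  rw [h1, add_sub_cancel_right]
  refine Submodule.add_mem _ (Submodule.add_mem _ (Submodule.smul_mem _ _ ?_)
    (Submodule.smul_mem _ _ ?_)) (Submodule.smul_mem _ _ ?_)
  · have : x * (h' * w) = 1 * (x * h' * w) := by group
    rw [this]
    exact W_mem (one_mem H) le_rfl (D.succ j h' w hh' hw)
  · have : h⁻¹ * (h' * w) = (h⁻¹ * h') * w := by group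
    rw [this]
    exact W_mem (mul_mem (inv_mem hh) hh') (Nat.le_succ j) hw
  · have : h⁻¹ * x⁻¹ * h⁻¹ * (h' * w) = (h⁻¹ * (x * x)⁻¹) * (x * (h⁻¹ * h') * w) := by group
    rw [this]
    exact W_mem (mul_mem (inv_mem hh) (inv_mem hx)) le_rfl
      (D.succ j _ w (mul_mem (inv_mem hh) hh') hw)

/-- `c` is an achievable first letter of the word `g` -/
def Ach (F : Type*) {A G : Type*} [Field F] [Ring A] [Algebra F A] [Group G] (f : G →* A)
    (H : Subgroup G) (x : G) (k : ℕ) (g c : G) : Prop :=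
  c ∈ H ∧ ∃ α : F, α ≠ 0 ∧ ∃ w, D H x k w ∧ f g - α • f (x * c * w) ∈ W F f H x k

theorem ach_short {k : ℕ} {g c w : G} {α : F} (hw : D H x (k + 1) w)
    (hg : f g - α • f (x * c * w) ∈ W F f H x (k + 1)) (hcx : x * c * x ∈ H) :
    f g ∈ W F f H x (k + 1) := by
  rcases hw with _ | ⟨_, h', w'', hh', hw''⟩
  have e : x * c * (x * h' * w'') = (x * c * x * h') * w'' := by group
  rw [e] at hg
  have h1 : f ((x * c * x * h') * w'') ∈ W F f H x (k + 1) :=
    W_mem (mul_mem hcx hh') (Nat.le_succ k) hw''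
  have := Submodule.add_mem _ hg (Submodule.smul_mem _ α h1)
  rwa [sub_add_cancel] at this

theorem ach_card (hc : Qua F f) (hx : x * x ∈ H) [DecidableEq G] : ∀ (k : ℕ) (g : G),
    D H x (k + 2) g → f g ∉ W F f H x (k + 1) →
      ∃ s : Finset G, k + 1 ≤ s.card ∧ ∀ c ∈ s, Ach F f H x (k + 1) g c := by
  intro k
  induction k with
  | zero =>
    intro g hg _
    rcases hg with _ | ⟨_, h, w, hh, hw⟩
    refine ⟨{h}, by simp, ?_⟩
    intro c hcs
    rw [Finset.mem_singleton] at hcs
    subst hcs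
    refine ⟨hh, 1, one_ne_zero, w, hw, ?_⟩
    rw [one_smul, sub_self]
    exact Submodule.zero_mem _
  | succ k ih =>
    intro g hg hirr
    rcases hg with _ | ⟨_, h, w, hh, hw⟩
    have hwirr : f w ∉ W F f H x (k + 1) := by
      intro hcon
      apply hirr
      rw [mul_assoc, map_mul, map_mul]
      exact W_x (W_H hh hcon)
    obtain ⟨s, hs, hsA⟩ := ih w hw hwirr
    have hz : (x * x)⁻¹ ∉ s := by
      intro hzs
      obtain ⟨-, α, -, w', hw', e⟩ := hsA _ hzs
      apply hwirr
      apply ach_short hw' e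
      have : x * (x * x)⁻¹ * x = 1 := by group
      rw [this]
      exact one_mem H
    refine ⟨insert h (s.image fun c => h * c⁻¹ * (x * x)⁻¹), ?_, ?_⟩
    · rw [Finset.card_insert_of_notMem, Finset.card_image_of_injective]
      · omega
      · intro a b hab
        have hab' : h * a⁻¹ * (x * x)⁻¹ = h * b⁻¹ * (x * x)⁻¹ := hab
        exact inv_injective (mul_left_cancel (mul_right_cancel hab'))
      · intro hmem
        rw [Finset.mem_image] at hmem
        obtain ⟨c, hcs, hch⟩ := hmem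
        apply hz
        have : c = (x * x)⁻¹ := by
          have h1 : c⁻¹ * (x * x)⁻¹ = 1 := by
            have : h * (c⁻¹ * (x * x)⁻¹) = h * 1 := by rw [← mul_assoc, hch, mul_one]
            exact mul_left_cancel this
          rw [inv_mul_eq_one] at h1
          exact h1
        rw [← this]
        exact hcs
    · intro c hcs
      rw [Finset.mem_insert, Finset.mem_image] at hcs
      rcases hcs with rfl | ⟨c, hcs, rfl⟩
      · refine ⟨hh, 1, one_ne_zero, w, hw, ?_⟩
        rw [one_smul, sub_self]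
        exact Submodule.zero_mem _
      · obtain ⟨hcH, α, hα, w', hw', e⟩ := hsA c hcs
        rcases hw' with _ | ⟨_, h', w'', hh', hw''⟩
        obtain ⟨β, hβ, e'⟩ := T_lemma hc hx hcH hh' hw''
        refine ⟨mul_mem (mul_mem hh (inv_mem hcH)) (inv_mem hx), α * β, mul_ne_zero hα hβ,
          x * c⁻¹ * (x * ((x * x)⁻¹ * c⁻¹ * h') * w''),
          D.succ (k + 1) _ _ (inv_mem hcH) (D.succ k _ _ (mul_mem (mul_mem (inv_mem hx)
            (inv_mem hcH)) hh') hw''), ?_⟩
        have e1 := W_x (W_H hh e)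
        have e2 := W_x (W_H hh e')
        have e3 := Submodule.add_mem _ e1 (Submodule.smul_mem _ α e2)
        have e4 : f (x * h * w) - (α * β) • f (x * (h * c⁻¹ * (x * x)⁻¹) *
            (x * c⁻¹ * (x * ((x * x)⁻¹ * c⁻¹ * h') * w''))) =
            f x * (f h * (f w - α • f (x * c * (x * h' * w'')))) +
            α • (f x * (f h * (f (x * c * (x * h' * w'')) - β • f (c⁻¹ * (x * x)⁻¹ *
              (x * c⁻¹ * (x * ((x * x)⁻¹ * c⁻¹ * h') * w'')))))) := by
          simp only [mul_sub, smul_sub, mul_smul_comm, ← map_mul, smul_smul]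
          have a1 : x * (h * w) = x * h * w := by group
          have a2 : x * (h * (c⁻¹ * (x * x)⁻¹ * (x * c⁻¹ * (x * ((x * x)⁻¹ * c⁻¹ * h') * w'')))) =
            x * (h * c⁻¹ * (x * x)⁻¹) * (x * c⁻¹ * (x * ((x * x)⁻¹ * c⁻¹ * h') * w'')) := by group
          rw [a1, a2]
          abel
        rw [e4]
        exact e3

/-- long words are combinations of shorter ones -/
theorem long_word (hc : Qua F f) (hx : x * x ∈ H) (hH : (H : Set G).Finite) {k : ℕ} {g : G}
    (hg : D H x (k + 2) g) (hk : Nat.card H ≤ k + 1) : f g ∈ W F f H x (k + 1) := by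
  classical
  by_contra hirr
  obtain ⟨s, hs, hsA⟩ := ach_card hc hx k g hg hirr
  have h1 : (1 : G) ∉ s := by
    intro h1s
    obtain ⟨-, α, -, w', hw', e⟩ := hsA _ h1s
    apply hirr
    apply ach_short hw' e
    rw [mul_one]; exact hx
  have h2 : ((insert 1 s : Finset G) : Set G) ⊆ (H : Set G) := by
    intro c hcs
    rw [Finset.coe_insert] at hcs
    rcases hcs with rfl | hcs
    · exact one_mem H
    · exact (hsA c hcs).1
  have h3 := Set.ncard_le_ncard h2 hH
  rw [Set.ncard_coe_finset, Finset.card_insert_of_notMem h1] at h3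
  have h4 : (H : Set G).ncard = Nat.card H := rfl
  omega

theorem W_stable (hc : Qua F f) (hx : x * x ∈ H) (hH : (H : Set G).Finite) (m : ℕ) :
    W F f H x m ≤ W F f H x (Nat.card H) := by
  have hpos : 1 ≤ Nat.card H := by
    have : Finite H := hH
    exact Nat.card_pos
  induction m with
  | zero => exact W_mono (Nat.zero_le _)
  | succ m ih =>
    rcases le_or_gt (m + 1) (Nat.card H) with h | h
    · exact W_mono h
    · refine le_trans ?_ ih
      conv_lhs => unfold W
      rw [Submodule.span_le]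
      rintro _ ⟨_, ⟨h', hh', i, hi, w, hw, rfl⟩, rfl⟩
      rcases Nat.lt_or_ge i (m + 1) with h1 | h1
      · exact W_mem hh' (Nat.lt_succ_iff.1 h1) hw
      · have hi' : i = (m - 1) + 2 := by omega
        subst hi'
        rw [map_mul]
        apply W_H hh'
        have := long_word hc hx hH (k := m - 1) hw (by omega)
        rwa [show m - 1 + 1 = m by omega] at this

theorem D_finite (hH : (H : Set G).Finite) : ∀ k, {g | D H x k g}.Finite := by
  intro k
  induction k with
  | zero =>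
    apply (Set.finite_singleton (1 : G)).subset
    intro g hg
    rcases hg with _ | _
    rfl
  | succ k ih =>
    apply (Set.Finite.image2 (fun h w => x * h * w) hH ih).subset
    intro g hg
    rcases hg with _ | ⟨_, h, w, hh, hw⟩
    exact ⟨h, hh, w, hw, rfl⟩

theorem W_fg (hH : (H : Set G).Finite) (k : ℕ) : (W F f H x k).FG := by
  unfold W
  apply Submodule.fg_span
  apply Set.Finite.image
  have : (⋃ j ∈ Finset.range (k + 1), {g | D H x j g}).Finite :=
    Set.Finite.biUnion (Finset.finite_toSet _) fun j _ => D_finite hH j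
  apply (Set.Finite.image2 (fun h w => h * w) hH this).subset
  rintro g ⟨h, hh, j, hj, w, hw, rfl⟩
  refine ⟨h, hh, w, ?_, rfl⟩
  rw [Set.mem_iUnion₂]
  exact ⟨j, Finset.mem_range.2 (Nat.lt_succ_iff.2 hj), hw⟩

/-- adjoining an element whose square is in a finite subgroup -/
theorem quartic_step (hc : Qua F f) (hx : x * x ∈ H) (hH : (H : Set G).Finite) :
    (Submodule.span F (f '' (Subgroup.closure (insert x (H : Set G)) : Set G))).FG := by
  have hword : ∀ g ∈ Subgroup.closure (insert x (H : Set G)),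
      ∃ h ∈ H, ∃ j w, D H x j w ∧ g = h * w := by
    intro g hg
    induction hg using Subgroup.closure_induction_left with
    | one => exact ⟨1, one_mem H, 0, 1, D.zero, by rw [one_mul]⟩
    | mul_left a ha b _ ih =>
      obtain ⟨h, hh, j, w, hw, rfl⟩ := ih
      rcases ha with rfl | ha
      · exact ⟨1, one_mem H, j + 1, a * h * w, D.succ j h w hh hw, by group⟩
      · exact ⟨a * h, mul_mem ha hh, j, w, hw, by group⟩
    | inv_mul_cancel a ha b _ ih =>
      obtain ⟨h, hh, j, w, hw, rfl⟩ := ih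
      rcases ha with rfl | ha
      · exact ⟨(a * a)⁻¹, inv_mem hx, j + 1, a * h * w, D.succ j h w hh hw, by group⟩
      · exact ⟨a⁻¹ * h, mul_mem (inv_mem ha) hh, j, w, hw, by group⟩
  refine Submodule.FG.of_le (W_fg (F := F) (f := f) (x := x) hH (Nat.card H)) ?_
  rw [Submodule.span_le]
  rintro _ ⟨g, hg, rfl⟩
  obtain ⟨h, hh, j, w, hw, rfl⟩ := hword g hg
  exact W_stable hc hx hH j (W_mem hh le_rfl hw)

end Q6.Deg
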