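import Mathlib
import Pool.Agent.Q6.Deg.Burn
import Pool.Agent.Q6.Deg.Cubic
import Pool.Agent.Q6.Deg.Quartic

/-!
# Local finiteness
-/

set_option autoImplicit false

namespace Q6.Deg

variable {F A G : Type*} [Field F] [Ring A] [Algebra F A] [Group G] {f : G →* A}

theorem cub_of (h : ∀ g : G, DegLE F 3 (f g)) : Cub F f := fun g =>
  cubic (by rw [← map_mul, inv_mul_cancel, map_one]) (h g)

theorem qua_of (h : ∀ g : G, DegLE F 4 (f g)) : Qua F f := fun g =>
  quartic (by rw [← map_mul, inv_mul_cancel, map_one]) (h g)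

theorem fg_of_finite {S : Set G} (hS : S.Finite) : Group.FG (Subgroup.closure S) :=
  (Group.fg_iff_subgroup_fg _).2 ⟨hS.toFinset, by rw [Set.Finite.coe_toFinset]⟩

/-- a subgroup generated by a finite set, of bounded exponent, with finite-dimensional span -/
theorem finite_closure (hinj : Function.Injective f) {S : Set G} (hS : S.Finite)
    (hfg : (Submodule.span F (f '' (Subgroup.closure S : Set G))).FG) {n : ℕ} (hn : 0 < n)
    (hG : ∀ g : G, g ^ n = 1) : Finite (Subgroup.closure S) := by
  have := fg_of_finite hS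
  have hr : Set.range (f.comp (Subgroup.closure S).subtype) =
      f '' (Subgroup.closure S : Set G) := by
    rw [MonoidHom.coe_comp, Set.range_comp]
    congr 1
    simp
  refine finite_of_span (F := F) (f.comp (Subgroup.closure S).subtype) ?_ ?_ n hn ?_
  · exact hinj.comp Subtype.val_injective
  · rw [hr]
    exact (Submodule.fg_iff_finiteDimensional _).1 hfg
  · intro g
    apply Subtype.ext
    exact hG g.1

/-- adjoining a 2-element to a finite subgroup -/
theorem adjoin_two (hc : Qua F f) (hinj : Function.Injective f) {n : ℕ} (hn : 0 < n)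
    (hG : ∀ g : G, g ^ n = 1) : ∀ (i : ℕ) (H : Subgroup G), (H : Set G).Finite →
      ∀ x : G, x ^ 2 ^ i = 1 → ∃ K : Subgroup G, (K : Set G).Finite ∧ H ≤ K ∧ x ∈ K := by
  intro i
  induction i with
  | zero =>
    intro H hH x hx
    rw [pow_zero, pow_one] at hx
    exact ⟨H, hH, le_rfl, by rw [hx]; exact one_mem H⟩
  | succ i ih =>
    intro H hH x hx
    obtain ⟨K, hK, hHK, hxK⟩ := ih H hH (x * x) (by
      rw [← pow_two, ← pow_mul, ← pow_succ']; exact hx)
    have hfin : (insert x (K : Set G)).Finite := hK.insert x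
    have := finite_closure hinj hfin (quartic_step hc hxK hK) hn hG
    refine ⟨Subgroup.closure (insert x (K : Set G)), Set.toFinite _, ?_, ?_⟩
    · intro h hh
      exact Subgroup.subset_closure (Set.mem_insert_of_mem _ (hHK hh))
    · exact Subgroup.subset_closure (Set.mem_insert _ _)

theorem adjoin_gen (hc : Qua F f) (hinj : Function.Injective f) {n : ℕ} (hn : 0 < n)
    (hG : ∀ g : G, g ^ n = 1) (x : G) (hx : x ∈ Subgroup.closure {g : G | ∃ i : ℕ, g ^ 2 ^ i = 1}) :
    ∀ H : Subgroup G, (H : Set G).Finite →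
      ∃ K : Subgroup G, (K : Set G).Finite ∧ H ≤ K ∧ x ∈ K := by
  induction hx using Subgroup.closure_induction with
  | mem x hx =>
    obtain ⟨i, hi⟩ := hx
    exact fun H hH => adjoin_two hc hinj hn hG i H hH x hi
  | one => exact fun H hH => ⟨H, hH, le_rfl, one_mem H⟩
  | mul a b _ _ iha ihb =>
    intro H hH
    obtain ⟨K, hK, hHK, haK⟩ := iha H hH
    obtain ⟨L, hL, hKL, hbL⟩ := ihb K hK
    exact ⟨L, hL, hHK.trans hKL, mul_mem (hKL haK) hbL⟩
  | inv a _ iha =>
    intro H hH
    obtain ⟨K, hK, hHK, haK⟩ := iha H hH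
    exact ⟨K, hK, hHK, inv_mem haK⟩

theorem adjoin_set (hc : Qua F f) (hinj : Function.Injective f) {n : ℕ} (hn : 0 < n)
    (hG : ∀ g : G, g ^ n = 1) (S : Set G) (hS : S.Finite)
    (hx : S ⊆ Subgroup.closure {g : G | ∃ i : ℕ, g ^ 2 ^ i = 1}) :
    ∃ K : Subgroup G, (K : Set G).Finite ∧ S ⊆ K := by
  induction S, hS using Set.Finite.induction_on with
  | empty => exact ⟨⊥, by simp, Set.empty_subset _⟩
  | insert _ _ ih =>
    rename_i x s _ _
    obtain ⟨K, hK, hsK⟩ := ih (fun y hy => hx (Set.mem_insert_of_mem _ hy))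
    obtain ⟨L, hL, hKL, hxL⟩ := adjoin_gen hc hinj hn hG x (hx (Set.mem_insert _ _)) K hK
    refine ⟨L, hL, ?_⟩
    rintro y (rfl | hy)
    · exact hxL
    · exact hKL (hsK hy)

/-- extension of locally finite by locally finite, for one finitely generated subgroup -/
theorem finite_of_extension (N : Subgroup G) [N.Normal]
    (hN : ∀ S : Set G, S.Finite → S ⊆ N → Finite (Subgroup.closure S)) (S : Set G) (hS : S.Finite)
    (hQ : Finite (Subgroup.closure ((QuotientGroup.mk' N) '' S))) :
    Finite (Subgroup.closure S) := by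
  have hfg := fg_of_finite hS
  set K := Subgroup.closure S with hK
  let φ : K →* G ⧸ N := (QuotientGroup.mk' N).comp K.subtype
  have hr : (Set.range φ).Finite := by
    have h1 : Set.range φ ⊆ (Subgroup.closure ((QuotientGroup.mk' N) '' S) : Set (G ⧸ N)) := by
      rintro _ ⟨g, rfl⟩
      rw [← MonoidHom.map_closure]
      exact Subgroup.mem_map_of_mem _ g.2
    exact (Set.toFinite _).subset h1
  have i1 := ker_finiteIndex φ hr
  have i2 : Group.FG φ.ker := inferInstance
  obtain ⟨T, hT⟩ := (Group.fg_iff_subgroup_fg _).1 i2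
  have hT2 : (Subgroup.closure (K.subtype '' (T : Set K))) = φ.ker.map K.subtype := by
    rw [← MonoidHom.map_closure, hT]
  have hfin : Finite (Subgroup.closure (K.subtype '' (T : Set K))) := by
    apply hN _ ((Finset.finite_toSet T).image _)
    rintro _ ⟨t, ht, rfl⟩
    have : t ∈ φ.ker := by rw [← hT]; exact Subgroup.subset_closure ht
    exact (QuotientGroup.eq_one_iff (t : G)).1 (MonoidHom.mem_ker.1 this)
  rw [hT2] at hfin
  have hker : Finite φ.ker := by
    apply Finite.of_injective (fun t : φ.ker => (⟨K.subtype t, Subgroup.mem_map_of_mem _ t.2⟩ :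
      φ.ker.map K.subtype))
    intro a b hab
    have := congrArg Subtype.val hab
    exact Subtype.ext (Subtype.ext this)
  apply Nat.finite_of_card_ne_zero
  rw [← Subgroup.card_mul_index φ.ker]
  exact mul_ne_zero Nat.card_pos.ne' i1.index_ne_zero

/-- `m` is in `𝓛` -/
def InL.{u} (m : ℕ) : Prop :=
  ∀ (K : Type u) [Group K], (∀ x : K, x ^ m = 1) → ∀ S : Set K, S.Finite →
    Finite (Subgroup.closure S)

theorem main_three (hinj : Function.Injective f) (h : ∀ g : G, DegLE F 3 (f g)) {n : ℕ}
    (hn : 0 < n) (hG : ∀ g : G, g ^ n = 1) (S : Set G) (hS : S.Finite) :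
    Finite (Subgroup.closure S) :=
  finite_closure hinj hS (cubic_span (cub_of h) S hS) hn hG

end Q6.Deg

namespace Q6.Deg

universe u v w

theorem main_four {F : Type v} {A : Type w} {G : Type u} [Field F] [Ring A] [Algebra F A]
    [Group G] {f : G →* A} (hinj : Function.Injective f) (h : ∀ g : G, DegLE F 4 (f g)) {k m : ℕ}
    (hm : 0 < m) (hL : InL.{u} m) (hG : ∀ g : G, g ^ (2 ^ k * m) = 1) (S : Set G)
    (hS : S.Finite) : Finite (Subgroup.closure S) := by
  have hc := qua_of h
  have hn : 0 < 2 ^ k * m := Nat.mul_pos (by positivity) hm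
  let N := Subgroup.closure {g : G | ∃ i : ℕ, g ^ 2 ^ i = 1}
  have hNn : N.Normal := by
    refine ⟨fun a ha g => ?_⟩
    induction ha using Subgroup.closure_induction with
    | mem a ha =>
      obtain ⟨i, hi⟩ := ha
      exact Subgroup.subset_closure ⟨i, by rw [conj_pow, hi, mul_one, mul_inv_cancel]⟩
    | one => rw [mul_one, mul_inv_cancel]; exact one_mem _
    | mul a b _ _ iha ihb =>
      have : g * (a * b) * g⁻¹ = (g * a * g⁻¹) * (g * b * g⁻¹) := by group
      rw [this]
      exact mul_mem iha ihb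
    | inv a _ iha =>
      have : g * a⁻¹ * g⁻¹ = (g * a * g⁻¹)⁻¹ := by group
      rw [this]
      exact inv_mem iha
  apply finite_of_extension N
  · intro S hS hSN
    obtain ⟨K, hK, hSK⟩ := adjoin_set hc hinj hn hG S hS hSN
    have : Finite K := hK
    exact Finite.of_injective _ (Subgroup.inclusion_injective ((Subgroup.closure_le K).2 hSK))
  · exact hS
  · apply hL
    · intro q
      obtain ⟨g, rfl⟩ := QuotientGroup.mk'_surjective N q
      rw [← map_pow]
      refine (QuotientGroup.eq_one_iff (g ^ m)).2 (Subgroup.subset_closure ⟨k, ?_⟩)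
      rw [← pow_mul, mul_comm]
      exact hG g
    · exact hS.image _

theorem inL_three : InL.{u} 3 := by
  intro K _ hK S hS
  have hinj : Function.Injective (MonoidAlgebra.of ℚ K) := MonoidAlgebra.of_injective
  refine finite_closure (F := ℚ) (f := MonoidAlgebra.of ℚ K) hinj hS
    (cubic_span ?_ S hS) (n := 3) (by norm_num) hK
  intro g
  refine ⟨0, 0, 1, one_ne_zero, ?_⟩
  have : g * g = g⁻¹ := by
    rw [eq_inv_iff_mul_eq_one, ← pow_two, ← pow_succ, hK]
  rw [← map_mul, this, zero_smul, zero_smul, one_smul, zero_add, zero_add]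

end Q6.Deg
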